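import Pool.Agent.W528.HC.Stm

/-!
# The point count of the surface
-/

set_option autoImplicit false

namespace Pool.Agent.W125.HC.PC

open Finset Pool.Agent.W528.HA Pool.Agent.W528.HC

section

variable {L : Type} [Field L] [Fintype L]

/-- the order divides `|L| - 1` -/
lemma order_dvd {N : ℕ} {z : L} (hN : 0 < N) (hz : IsPrimitiveRoot z N) :
    N * ((Fintype.card L - 1) / N) = Fintype.card L - 1 := by
  apply Nat.mul_div_cancel'
  have hz0 : z ≠ 0 := hz.ne_zero hN.ne'
  exact hz.dvd_of_pow_eq_one _ (FiniteField.pow_card_sub_one_eq_one z hz0)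

lemma w_pos {N : ℕ} {z : L} (hN : 0 < N) (hz : IsPrimitiveRoot z N) :
    0 < (Fintype.card L - 1) / N := by
  have h1 := order_dvd hN hz
  have h2 : 1 < Fintype.card L := Fintype.one_lt_card
  rcases Nat.eq_zero_or_pos ((Fintype.card L - 1) / N) with h | h
  · rw [h] at h1; omega
  · exact h

lemma kv_one {R : Type} [CommRing R] {N : ℕ} {z : L} (hN : 0 < N) (hz : IsPrimitiveRoot z N)
    (μ : R) : kv N z μ (1 : L) = 1 := by
  classical
  unfold kv
  rw [sum_eq_single_of_mem 0 (mem_range.2 hN)]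
  · simp
  · intro k hk hk0
    rw [if_neg]
    intro h
    have h1 := hz.dvd_of_pow_eq_one k h.symm
    rw [mem_range] at hk
    have := Nat.le_of_dvd (Nat.pos_of_ne_zero hk0) h1
    omega

/-- the exponents modulo `p` -/
lemma pow_mod {p r : ℕ} {z : L} (hp : 0 < p) (hr : 0 < r) (hz : IsPrimitiveRoot z (p * r)) {b : ℕ}
    (hb : ¬ p ∣ b) (y : L) :
    (y ^ (r * (b % p))) ^ ((Fintype.card L - 1) / (p * r)) =
      (y ^ (r * b)) ^ ((Fintype.card L - 1) / (p * r)) := by
  have hN : 0 < p * r := Nat.mul_pos hp hr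
  have hw := w_pos hN hz
  have hNw := order_dvd hN hz
  set w := (Fintype.card L - 1) / (p * r) with hwdef
  have hb1 : 0 < b % p := Nat.pos_of_ne_zero fun h => hb (Nat.dvd_of_mod_eq_zero h)
  have hb2 : 0 < b := Nat.pos_of_ne_zero fun h => hb (h ▸ dvd_zero p)
  by_cases hy : y = 0
  · rw [hy, zero_pow (Nat.mul_pos hr hb1).ne', zero_pow (Nat.mul_pos hr hb2).ne']
  · have h1 : b = p * (b / p) + b % p := (Nat.div_add_mod b p).symm
    have h2 : y ^ (p * r * w) = 1 := by
      rw [hNw]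
      exact FiniteField.pow_card_sub_one_eq_one y hy
    rw [← pow_mul, ← pow_mul]
    have h3 : r * b * w = (p * r * w) * (b / p) + r * (b % p) * w := by
      conv_lhs => rw [h1]
      ring
    rw [h3, pow_add, pow_mul y (p * r * w), h2, one_pow, one_mul]

lemma ncard_eq (P : L → Prop) [DecidablePred P] {E : Type} [Field E] :
    ((Set.ncard {y : L | P y} : ℕ) : E) = ∑ y : L, if P y then 1 else 0 := by
  classical
  have h : {y : L | P y} = ((univ.filter P : Finset L) : Set L) := by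
    ext y; simp
  rw [h, Set.ncard_coe_finset, card_filter]
  push_cast
  rfl

lemma surface_eq [DecidableEq L] {p r m : ℕ} (α β : Fin m → L) (a : Fin m → ℕ) {E : Type}
    [Field E] :
    ((surfacePoints L p r α β a : ℕ) : E) = ∑ x : L, ∑ u : L,
      ((Set.ncard {y : L | y ^ p = ∏ i, (x - α i * u ^ r - β i) ^ a i} : ℕ) : E) := by
  classical
  unfold surfacePoints
  have h : {v : L × L × L | v.2.2 ^ p = ∏ i, (v.1 - α i * v.2.1 ^ r - β i) ^ a i} =
      ((univ.filter (fun v : L × L × L =>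
        v.2.2 ^ p = ∏ i, (v.1 - α i * v.2.1 ^ r - β i) ^ a i) : Finset (L × L × L)) :
        Set (L × L × L)) := by
    ext y; simp
  rw [h, Set.ncard_coe_finset, card_filter, Fintype.sum_prod_type]
  push_cast
  refine sum_congr rfl fun x _ => ?_
  rw [Fintype.sum_prod_type]
  refine sum_congr rfl fun u _ => ?_
  rw [ncard_eq]

lemma swap4 {E : Type} [Field E] (J S : Finset ℕ) (f : L → L → ℕ → E) (g : L → ℕ → E) :
    ∑ j ∈ J, ∑ s ∈ S, ∑ x : L, ∑ t : L, f x t j * g t s =
      ∑ x : L, ∑ t : L, (∑ j ∈ J, f x t j) * ∑ s ∈ S, g t s := by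
  have h1 : ∀ j, ∑ s ∈ S, ∑ x : L, ∑ t : L, f x t j * g t s =
      ∑ x : L, ∑ t : L, ∑ s ∈ S, f x t j * g t s := by
    intro j
    rw [sum_comm]
    exact sum_congr rfl fun x _ => sum_comm
  simp only [h1, sum_mul_sum]
  rw [sum_comm]
  exact sum_congr rfl fun x _ => sum_comm

end

theorem main : PR → MU → PC := by
  classical
  intro hPR hMU L _ _ p r z hp hr hrp hz E _ _ μ hμ m α β a ha
  have hN : 0 < p * r := Nat.mul_pos hp.pos hr
  have hN2 : 2 ≤ p * r := by
    calc 2 ≤ p := hp.two_le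
      _ = p * 1 := (mul_one p).symm
      _ ≤ p * r := Nat.mul_le_mul_left p hr
  have hmu := hMU L (p * r) z hN2 hz E μ hμ.pow_eq_one
  -- the linear factors
  obtain ⟨F, hF⟩ : ∃ F : L → L → L, F = fun x t => ∏ i, (x - α i * t - β i) ^ a i := ⟨_, rfl⟩
  have h1 : ∀ j ∈ Ico 1 p, ∀ s : ℕ, ∀ x t : L, kv (p * r) z μ
      (((∏ i, (x - α i * t - β i) ^ (r * (j * a i % p))) * t ^ (p * s))
        ^ ((Fintype.card L - 1) / (p * r))) =
      kv (p * r) z μ ((F x t ^ (r * j)) ^ ((Fintype.card L - 1) / (p * r))) *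
        kv (p * r) z μ ((t ^ (p * s)) ^ ((Fintype.card L - 1) / (p * r))) := by
    intro j hj s x t
    rw [mem_Ico] at hj
    rw [hmu]
    congr 2
    rw [hF]
    simp only
    rw [← prod_pow, ← prod_pow, ← prod_pow]
    refine prod_congr rfl fun i _ => ?_
    have hnd : ¬ p ∣ j * a i := by
      intro hd
      rcases (Nat.Prime.dvd_mul hp).1 hd with h | h
      · have := Nat.le_of_dvd (by omega) h
        omega
      · have := Nat.le_of_dvd (ha i).1 h
        have := (ha i).2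
        omega
    rw [pow_mod hp.pos hr hz hnd, ← pow_mul (x - α i * t - β i) (a i)]
    congr 2
    ring
  have h2 : ∀ v : L, ∑ j ∈ Ico 1 p,
      kv (p * r) z μ ((v ^ (r * j)) ^ ((Fintype.card L - 1) / (p * r))) =
      ((Set.ncard {y : L | y ^ p = v} : ℕ) : E) - 1 := by
    intro v
    have := hPR L (p * r) p r z rfl hz hp.pos hr E μ hμ v
    rw [this]; ring
  have h3 : ∀ v : L, ∑ s ∈ range r,
      kv (p * r) z μ ((v ^ (p * s)) ^ ((Fintype.card L - 1) / (p * r))) =
      ((Set.ncard {y : L | y ^ r = v} : ℕ) : E) := by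
    intro v
    have := hPR L (p * r) r p z (mul_comm p r) hz hr hp.pos E μ hμ v
    rw [this, range_eq_Ico, sum_eq_sum_Ico_succ_bot hr]
    congr 1
    rw [mul_zero, pow_zero, one_pow, kv_one hN hz]
  unfold curveSum
  obtain ⟨A, hA⟩ : ∃ A : L → L → ℕ → E, A = fun x t j =>
      kv (p * r) z μ ((F x t ^ (r * j)) ^ ((Fintype.card L - 1) / (p * r))) := ⟨_, rfl⟩
  obtain ⟨B, hB⟩ : ∃ B : L → ℕ → E, B = fun t s =>
      kv (p * r) z μ ((t ^ (p * s)) ^ ((Fintype.card L - 1) / (p * r))) := ⟨_, rfl⟩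
  have h2' : ∀ x t : L, (∑ j ∈ Ico 1 p, A x t j) =
      ((Set.ncard {y : L | y ^ p = F x t} : ℕ) : E) - 1 := by
    intro x t
    rw [hA]
    exact h2 (F x t)
  have h3' : ∀ t : L, (∑ s ∈ range r, B t s) =
      ((Set.ncard {y : L | y ^ r = t} : ℕ) : E) := by
    intro t
    rw [hB]
    exact h3 t
  have e1 : (∑ j ∈ Ico 1 p, ∑ s ∈ range r, ∑ x : L, ∑ t : L, kv (p * r) z μ
      (((∏ i, (x - α i * t - β i) ^ (r * (j * a i % p))) * t ^ (p * s))
        ^ ((Fintype.card L - 1) / (p * r)))) =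
      ∑ j ∈ Ico 1 p, ∑ s ∈ range r, ∑ x : L, ∑ t : L, A x t j * B t s := by
    rw [hA, hB]
    exact sum_congr rfl fun j hj => sum_congr rfl fun s _ => sum_congr rfl fun x _ =>
          sum_congr rfl fun t _ => h1 j hj s x t
  have e3 : (∑ x : L, ∑ t : L, (∑ j ∈ Ico 1 p, A x t j) * (∑ s ∈ range r, B t s)) =
      ∑ x : L, ∑ t : L, (((Set.ncard {y : L | y ^ p = F x t} : ℕ) : E) - 1) *
        ((Set.ncard {u : L | u ^ r = t} : ℕ) : E) :=
    sum_congr rfl fun x _ => sum_congr rfl fun t _ => by rw [h2', h3']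
  have e4 : (∑ x : L, ∑ t : L, (((Set.ncard {y : L | y ^ p = F x t} : ℕ) : E) - 1) *
        ((Set.ncard {u : L | u ^ r = t} : ℕ) : E)) =
      ∑ x : L, ∑ u : L, (((Set.ncard {y : L | y ^ p = F x (u ^ r)} : ℕ) : E) - 1) := by
    refine sum_congr rfl fun x _ => ?_
    have e5 : ∀ t : L, (((Set.ncard {y : L | y ^ p = F x t} : ℕ) : E) - 1) *
        ((Set.ncard {u : L | u ^ r = t} : ℕ) : E) =
        ∑ u : L, (((Set.ncard {y : L | y ^ p = F x t} : ℕ) : E) - 1) *
          (if u ^ r = t then 1 else 0) := by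
      intro t
      rw [ncard_eq (fun u : L => u ^ r = t), mul_sum]
    rw [sum_congr rfl fun t _ => e5 t, sum_comm]
    refine sum_congr rfl fun u _ => ?_
    rw [sum_eq_single_of_mem (u ^ r) (mem_univ _)]
    · rw [if_pos rfl, mul_one]
    · intro t _ ht
      rw [if_neg (fun h => ht h.symm), mul_zero]
  refine e1.trans ((swap4 (Ico 1 p) (range r) A B).trans (e3.trans (e4.trans ?_)))
  rw [surface_eq]
  simp only [sum_sub_distrib, sum_const, card_univ, nsmul_eq_mul, mul_one, hF]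
  ring

end Pool.Agent.W125.HC.PC
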